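import Pool.Agent.Helper69.UW.Defs
import Pool.Agent.Helper90.UV.R6

/-!
# UW, block M4: the arithmetic bound for the weighted second moment of `F - 1`

Write `j = j₁ j₂`, `j₁` the part of `j` in the primes of the resonator.
-/

set_option autoImplicit false

open Finset
open Pool.Agent.Helper69.UW
open Pool.Agent.Helper90.UV (ppart)

namespace Pool.Agent.Helper90.UW

/-! ## The decomposition -/

/-- the part of `j` in the primes of `P` -/
private noncomputable def jp (P : Finset ℕ) (j : ℕ) : ℕ :=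
  ∏ p ∈ j.primeFactors with p ∈ P, p ^ j.factorization p

/-- the other part -/
private noncomputable def jq (P : Finset ℕ) (j : ℕ) : ℕ :=
  ∏ p ∈ j.primeFactors with p ∉ P, p ^ j.factorization p

private lemma jp_mul_jq (P : Finset ℕ) {j : ℕ} (hj : j ≠ 0) : jp P j * jq P j = j := by
  unfold jp jq
  rw [Finset.prod_filter_mul_prod_filter_not]
  have h1 := Nat.prod_factorization_pow_eq_self hj
  rwa [Nat.prod_factorization_eq_prod_primeFactors] at h1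

private lemma jp_ne (P : Finset ℕ) {j : ℕ} (hj : j ≠ 0) : jp P j ≠ 0 := by
  intro h
  apply hj
  rw [← jp_mul_jq P hj, h, zero_mul]

private lemma jq_ne (P : Finset ℕ) {j : ℕ} (hj : j ≠ 0) : jq P j ≠ 0 := by
  intro h
  apply hj
  rw [← jp_mul_jq P hj, h, mul_zero]

private lemma jp_primeFactors (P : Finset ℕ) (j : ℕ) : (jp P j).primeFactors ⊆ P := by
  intro p hp
  obtain ⟨hpp, hdvd, -⟩ := Nat.mem_primeFactors.1 hp
  obtain ⟨q, hq, hpq⟩ := (Nat.prime_iff.1 hpp).exists_mem_finset_dvd hdvd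
  obtain ⟨hq1, hq2⟩ := Finset.mem_filter.1 hq
  have h1 := (Nat.prime_dvd_prime_iff_eq hpp (Nat.prime_of_mem_primeFactors hq1)).1
    (hpp.dvd_of_dvd_pow hpq)
  rwa [h1]

private lemma jq_not_dvd {P : Finset ℕ} (hP : ∀ p ∈ P, p.Prime) (j : ℕ) :
    ∀ p ∈ P, ¬ p ∣ jq P j := by
  intro p hp hdvd
  obtain ⟨q, hq, hpq⟩ := (Nat.prime_iff.1 (hP p hp)).exists_mem_finset_dvd hdvd
  obtain ⟨hq1, hq2⟩ := Finset.mem_filter.1 hq
  have h1 := (Nat.prime_dvd_prime_iff_eq (hP p hp) (Nat.prime_of_mem_primeFactors hq1)).1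
    ((hP p hp).dvd_of_dvd_pow hpq)
  exact hq2 (h1 ▸ hp)

/-- a sum over the divisors with weight supported on `P`-numbers -/
private lemma split_sum {P : Finset ℕ} (hP : ∀ p ∈ P, p.Prime) {r : ℕ → ℝ}
    (hr : ∀ n, r n ≠ 0 → n.primeFactors ⊆ P) (H : ℕ → ℝ) {j : ℕ} (hj : j ≠ 0) :
    ∑ n ∈ j.divisors, r n * H (j / n) =
      ∑ n ∈ (jp P j).divisors, r n * H (jp P j / n * jq P j) := by
  have hsub : (jp P j).divisors ⊆ j.divisors := by
    intro n hn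
    refine Nat.mem_divisors.2 ⟨(Nat.dvd_of_mem_divisors hn).trans ?_, hj⟩
    exact ⟨jq P j, (jp_mul_jq P hj).symm⟩
  rw [← Finset.sum_subset hsub (f := fun n => r n * H (j / n))]
  · refine Finset.sum_congr rfl fun n hn => ?_
    have hd := Nat.dvd_of_mem_divisors hn
    rw [Nat.div_mul_right_comm hd, jp_mul_jq P hj]
  · intro n hn hn'
    by_cases h0 : r n = 0
    · rw [h0, zero_mul]
    · exfalso
      apply hn'
      refine Nat.mem_divisors.2 ⟨?_, jp_ne P hj⟩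
      have h1 := Nat.dvd_of_mem_divisors hn
      rw [← jp_mul_jq P hj] at h1
      refine Nat.Coprime.dvd_of_dvd_mul_right ?_ h1
      refine Nat.Coprime.symm (Nat.Coprime.symm ?_)
      rw [Nat.coprime_iff_gcd_eq_one]
      by_contra hg
      obtain ⟨p, hp, hpg⟩ := Nat.exists_prime_and_dvd hg
      have h2 : p ∣ n := hpg.trans (Nat.gcd_dvd_left _ _)
      have h3 : p ∣ jq P j := hpg.trans (Nat.gcd_dvd_right _ _)
      have hn0 : n ≠ 0 := fun h => by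
        rw [h] at hn
        exact absurd (Nat.pos_of_mem_divisors hn) (lt_irrefl 0)
      exact jq_not_dvd hP j p (hr n h0 (Nat.mem_primeFactors.2 ⟨hp, h2, hn0⟩)) h3

/-- the sum over `j` of a product of a function of `j₁` and a function of `j₂` -/
private lemma sum_prod {P : Finset ℕ} (S : Finset ℕ) (hS : ∀ j ∈ S, j ≠ 0) {A B : ℕ → ℝ}
    (hA : ∀ n, 0 ≤ A n) (hB : ∀ n, 0 ≤ B n) :
    ∑ j ∈ S, B (jp P j) * A (jq P j) ≤
      (∑ m ∈ S.image (jp P), B m) * ∑ m ∈ S.image (jq P), A m := by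
  classical
  rw [Finset.sum_mul_sum, ← Finset.sum_product']
  have hinj : Set.InjOn (fun j => (jp P j, jq P j)) (S : Set ℕ) := by
    intro i hi j hj h
    have h1 : jp P i = jp P j := (Prod.mk.inj h).1
    have h2 : jq P i = jq P j := (Prod.mk.inj h).2
    rw [← jp_mul_jq P (hS i hi), ← jp_mul_jq P (hS j hj), h1, h2]
  rw [← Finset.sum_image (f := fun x : ℕ × ℕ => B x.1 * A x.2) hinj]
  refine Finset.sum_le_sum_of_subset_of_nonneg ?_ fun x _ _ => mul_nonneg (hB _) (hA _)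
  intro x hx
  obtain ⟨j, hj, rfl⟩ := Finset.mem_image.1 hx
  exact Finset.mem_product.2 ⟨Finset.mem_image_of_mem _ hj, Finset.mem_image_of_mem _ hj⟩

/-! ## The resonator and the mollifier -/

variable {δ : ℝ}

private lemma PR_prime {T c μ : ℝ} : ∀ p ∈ PR δ T c μ, p.Prime := fun _ hp =>
  (Finset.mem_filter.1 hp).2.1

private lemma rr_pf {T c μ v : ℝ} {n : ℕ} (h : rr δ T c μ v n ≠ 0) : n.primeFactors ⊆ PR δ T c μ := by
  unfold rr at h
  by_contra hn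
  apply h
  rw [if_neg fun h' => hn h'.2.1]

private lemma rr_le {T c μ v : ℝ} (n : ℕ) :
    |rr δ T c μ v n| ≤ if Squarefree n then ∏ p ∈ n.primeFactors, |rp T c v p| else 0 := by
  unfold rr
  by_cases h : Squarefree n ∧ n.primeFactors ⊆ PR δ T c μ ∧ n.primeFactors.card ≤ KR δ μ
  · rw [if_pos h, if_pos h.1, Finset.abs_prod]
  · rw [if_neg h, abs_zero]
    split_ifs
    · exact Finset.prod_nonneg fun p _ => abs_nonneg _
    · exact le_rfl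

private lemma gg_one {T c μ : ℝ} (hT : 1 < T) : gg T (PR δ T c μ) 1 = 1 := by
  unfold gg mm
  rw [Nat.divisors_one, Finset.sum_singleton, Nat.divisorsAntidiagonal_one, Finset.sum_singleton]
  have h1 : ma T (PR δ T c μ) 1 = 1 := by
    unfold ma
    rw [if_pos fun p hp h => (PR_prime p hp).one_lt.ne' (Nat.dvd_one.1 h)]
    simp
  have h2 : mb T (PR δ T c μ) 1 = 1 := by
    unfold mb
    rw [if_pos ⟨by simp, by
      rw [Nat.cast_one]
      exact Real.one_le_rpow hT.le (by positivity)⟩]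
    simp
  change ma T (PR δ T c μ) 1 * mb T (PR δ T c μ) 1 = 1
  rw [h1, h2, one_mul]

section

/-- gap (block M3) -/
def Gap : Prop := ∀ {T : ℝ} {Q : Finset ℕ}, (∀ p ∈ Q, p.Prime) → 1 < T → ∀ {n : ℕ}, 1 < n → (n : ℝ) ≤ T ^ (1 / 32 : ℝ) → gg T Q n = 0

/-- factorisation (block M3) -/
def GMul : Prop := ∀ {T : ℝ} {Q : Finset ℕ}, (∀ p ∈ Q, p.Prime) → ∀ {n₁ n₂ : ℕ}, n₁ ≠ 0 → n₂ ≠ 0 → n₁.primeFactors ⊆ Q →
    (∀ p ∈ Q, ¬ p ∣ n₂) → gg T Q (n₁ * n₂) = (∑ d ∈ n₁.divisors, mb T Q d) * ∑ d ∈ n₂.divisors, ma T Q d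

/-- bound (block M3) -/
def GB : Prop := ∀ {T : ℝ} {Q : Finset ℕ} (n : ℕ), |∑ d ∈ n.divisors, mb T Q d| ≤ 2 ^ n.primeFactors.card

/-- block R5 -/
def ProdVV (δ : ℝ) : Prop := ∃ C c0 T0 : ℝ, 0 < C ∧ ∀ T c m v : ℝ, T0 ≤ T → Adm c0 T c m → |v| = vv δ c m →
    ∏ p ∈ PR δ T c m, (1 + (2 + |rp T c v p|) ^ 2 / p + 2 * (2 + 2 * |rp T c v p|) ^ 2 / p ^ 2) ≤
      C * Real.exp (C * √m) * VV δ T c m v

/-- block M2 -/
def BV (δ : ℝ) : Prop := ∃ C c0 T0 : ℝ, 0 < C ∧ ∀ T c m : ℝ, T0 ≤ T → Adm c0 T c m →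
    ∀ S : Finset ℕ, (∀ n ∈ S, n ≠ 0) →
    ∑ n ∈ S, (∑ d ∈ n.divisors, ma T (PR δ T c m) d) ^ 2 * (n : ℝ) ^ (-(1 + 2 / Real.log T)) ≤ C * Real.exp (C * √m)

/-- the function of `j₂` -/
private noncomputable def Af (T : ℝ) (Q : Finset ℕ) (m : ℕ) : ℝ :=
  (∑ d ∈ m.divisors, ma T Q d) ^ 2 * (m : ℝ) ^ (-(1 + 2 / Real.log T))

/-- the function of `j₁` -/
private noncomputable def Bf (w : ℕ → ℝ) (m : ℕ) : ℝ :=
  (∑ d ∈ m.divisors, (if Squarefree d then ∏ p ∈ d.primeFactors, w p else 0) *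
    2 ^ (m / d).primeFactors.card) ^ 2 / (m : ℝ)

private lemma Af_nonneg (T : ℝ) (Q : Finset ℕ) (m : ℕ) : 0 ≤ Af T Q m := by
  unfold Af
  positivity

private lemma Bf_nonneg (w : ℕ → ℝ) (m : ℕ) : 0 ≤ Bf w m := by
  unfold Bf
  positivity

/-- one term -/
private lemma term_le (hgap : Gap) (hmul : GMul) (hgb : GB) {T c μ v σ : ℝ} (hT : 1 < T)
    (hσ : 1 / 2 + 1 / Real.log T ≤ σ) {q : ℕ → ℝ}
    (hq : ∀ n, |q n| ≤ |rr δ T c μ v n| * (n : ℝ) ^ (σ - 1 / 2)) {j : ℕ} (hj : j ≠ 0) :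
    ((∑ h ∈ j.divisors, gg T (PR δ T c μ) h * q (j / h)) - q j) ^ 2 * (j : ℝ) ^ (-2 * σ) ≤
      T ^ (-(σ - 1 / 2 - 1 / Real.log T) / 16) * (Bf (fun p => |rp T c v p|) (jp (PR δ T c μ) j) * Af T (PR δ T c μ) (jq (PR δ T c μ) j)) := by
  have hT0 : 0 < T := by linarith
  have hL : 0 < Real.log T := Real.log_pos hT
  obtain ⟨σ₁, hσ₁⟩ : ∃ s, s = 1 / 2 + 1 / Real.log T := ⟨_, rfl⟩
  have hσ₁' : 1 / 2 ≤ σ₁ := by
    rw [hσ₁]
    have : 0 ≤ 1 / Real.log T := by positivity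
    linarith
  rw [← hσ₁] at hσ
  obtain ⟨P, hPdef⟩ : ∃ P, P = PR δ T c μ := ⟨_, rfl⟩
  have hP : ∀ p ∈ P, p.Prime := by rw [hPdef]; exact PR_prime
  rw [← hPdef]
  have hj0 : (0 : ℝ) < j := by exact_mod_cast Nat.pos_of_ne_zero hj
  -- the sum without `h = 1`
  have hD : (∑ h ∈ j.divisors, gg T (PR δ T c μ) h * q (j / h)) - q j =
      ∑ h ∈ j.divisors.erase 1, gg T (PR δ T c μ) h * q (j / h) := by
    rw [← Finset.add_sum_erase _ _ (Nat.one_mem_divisors.2 hj), gg_one hT, Nat.div_one, one_mul]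
    ring
  obtain ⟨Z, hZ⟩ : ∃ Z : ℝ, Z = T ^ (-(σ - σ₁) / 32) := ⟨_, rfl⟩
  have hZ0 : 0 ≤ Z := by rw [hZ]; positivity
  -- the absolute value
  have hterm : ∀ h ∈ j.divisors.erase 1, |gg T (PR δ T c μ) h * q (j / h)| * (j : ℝ) ^ (-σ) ≤
      Z * (|gg T (PR δ T c μ) h| * (h : ℝ) ^ (-σ₁) * (|rr δ T c μ v (j / h)| * ((j / h : ℕ) : ℝ) ^ (-(1 / 2 : ℝ)))) := by
    intro h hh
    obtain ⟨hh1, hh2⟩ := Finset.mem_erase.1 hh
    have hdvd := Nat.dvd_of_mem_divisors hh2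
    have hhpos : 0 < h := Nat.pos_of_mem_divisors hh2
    have hh0 : (0 : ℝ) < h := by exact_mod_cast hhpos
    have hn0 : 0 < j / h := Nat.div_pos (Nat.le_of_dvd (Nat.pos_of_ne_zero hj) hdvd) hhpos
    have hn0' : (0 : ℝ) < ((j / h : ℕ) : ℝ) := by exact_mod_cast hn0
    have hjm : (j : ℝ) = h * ((j / h : ℕ) : ℝ) := by
      rw [← Nat.cast_mul, Nat.mul_div_cancel' hdvd]
    by_cases hle : (h : ℝ) ≤ T ^ (1 / 32 : ℝ)
    · rw [hgap PR_prime hT (by omega) hle]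
      simp
    · rw [not_le] at hle
      rw [abs_mul, hjm, Real.mul_rpow hh0.le hn0'.le]
      have h1 : (h : ℝ) ^ (-σ) ≤ Z * (h : ℝ) ^ (-σ₁) := by
        have h2 : (h : ℝ) ^ (-σ) = (h : ℝ) ^ (-(σ - σ₁)) * (h : ℝ) ^ (-σ₁) := by
          rw [← Real.rpow_add hh0]
          congr 1
          ring
        rw [h2]
        refine mul_le_mul_of_nonneg_right ?_ (Real.rpow_nonneg hh0.le _)
        have h3 : Z = (T ^ (1 / 32 : ℝ)) ^ (-(σ - σ₁)) := by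
          rw [hZ, ← Real.rpow_mul hT0.le]
          congr 1
          ring
        rw [h3]
        exact Real.rpow_le_rpow_of_nonpos (Real.rpow_pos_of_pos hT0 _) hle.le (by linarith)
      have h4 : |q (j / h)| * ((j / h : ℕ) : ℝ) ^ (-σ) ≤
          |rr δ T c μ v (j / h)| * ((j / h : ℕ) : ℝ) ^ (-(1 / 2 : ℝ)) := by
        calc |q (j / h)| * ((j / h : ℕ) : ℝ) ^ (-σ)
            ≤ |rr δ T c μ v (j / h)| * ((j / h : ℕ) : ℝ) ^ (σ - 1 / 2) * ((j / h : ℕ) : ℝ) ^ (-σ) :=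
              mul_le_mul_of_nonneg_right (hq _) (Real.rpow_nonneg hn0'.le _)
          _ = |rr δ T c μ v (j / h)| * ((j / h : ℕ) : ℝ) ^ (-(1 / 2 : ℝ)) := by
              rw [mul_assoc, ← Real.rpow_add hn0']
              congr 2
              ring
      calc |gg T (PR δ T c μ) h| * |q (j / h)| * ((h : ℝ) ^ (-σ) * ((j / h : ℕ) : ℝ) ^ (-σ))
          = |gg T (PR δ T c μ) h| * (h : ℝ) ^ (-σ) * (|q (j / h)| * ((j / h : ℕ) : ℝ) ^ (-σ)) := by ring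
        _ ≤ |gg T (PR δ T c μ) h| * (Z * (h : ℝ) ^ (-σ₁)) *
            (|rr δ T c μ v (j / h)| * ((j / h : ℕ) : ℝ) ^ (-(1 / 2 : ℝ))) := by
            refine mul_le_mul (mul_le_mul_of_nonneg_left h1 (abs_nonneg _)) h4 ?_ ?_
            · positivity
            · positivity
        _ = _ := by ring
  -- the whole sum
  obtain ⟨H, hH⟩ : ∃ H : ℕ → ℝ, ∀ h, H h = |gg T (PR δ T c μ) h| * (h : ℝ) ^ (-σ₁) := ⟨_, fun _ => rfl⟩
  obtain ⟨r, hr⟩ : ∃ r : ℕ → ℝ, ∀ n, r n = |rr δ T c μ v n| * (n : ℝ) ^ (-(1 / 2 : ℝ)) :=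
    ⟨_, fun _ => rfl⟩
  have hsum1 : |(∑ h ∈ j.divisors, gg T (PR δ T c μ) h * q (j / h)) - q j| * (j : ℝ) ^ (-σ) ≤
      Z * ∑ n ∈ j.divisors, r n * H (j / n) := by
    rw [hD]
    calc |∑ h ∈ j.divisors.erase 1, gg T (PR δ T c μ) h * q (j / h)| * (j : ℝ) ^ (-σ)
        ≤ (∑ h ∈ j.divisors.erase 1, |gg T (PR δ T c μ) h * q (j / h)|) * (j : ℝ) ^ (-σ) :=
          mul_le_mul_of_nonneg_right (Finset.abs_sum_le_sum_abs _ _) (Real.rpow_nonneg hj0.le _)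
      _ = ∑ h ∈ j.divisors.erase 1, |gg T (PR δ T c μ) h * q (j / h)| * (j : ℝ) ^ (-σ) := Finset.sum_mul _ _ _
      _ ≤ ∑ h ∈ j.divisors.erase 1, Z * (H h * r (j / h)) := by
          refine Finset.sum_le_sum fun h hh => ?_
          rw [hH, hr]
          exact hterm h hh
      _ ≤ ∑ h ∈ j.divisors, Z * (H h * r (j / h)) := by
          refine Finset.sum_le_sum_of_subset_of_nonneg (Finset.erase_subset _ _) fun h _ _ => ?_
          rw [hH, hr]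
          positivity
      _ = Z * ∑ h ∈ j.divisors, H h * r (j / h) := (Finset.mul_sum _ _ _).symm
      _ = Z * ∑ n ∈ j.divisors, r n * H (j / n) := by
          congr 1
          rw [← Nat.sum_divisorsAntidiagonal (fun a b => r a * H b),
            Nat.sum_divisorsAntidiagonal' (fun a b => r a * H b)]
          refine Finset.sum_congr rfl fun x _ => ?_
          exact mul_comm _ _
  rw [split_sum hP (r := r) (fun n hn => by
    rw [hPdef]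
    refine rr_pf (v := v) fun h0 => hn ?_
    rw [hr, h0, abs_zero, zero_mul]) H hj] at hsum1
  obtain ⟨m, hm⟩ : ∃ m, m = jp P j := ⟨_, rfl⟩
  obtain ⟨m', hm'⟩ : ∃ m, m = jq P j := ⟨_, rfl⟩
  rw [← hm, ← hm'] at hsum1 ⊢
  have hmne : m ≠ 0 := by rw [hm]; exact jp_ne P hj
  have hm'ne : m' ≠ 0 := by rw [hm']; exact jq_ne P hj
  have hm0 : (0 : ℝ) < m := by exact_mod_cast Nat.pos_of_ne_zero hmne
  have hm'0 : (0 : ℝ) < m' := by exact_mod_cast Nat.pos_of_ne_zero hm'ne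
  have hmP : m.primeFactors ⊆ PR δ T c μ := by rw [hm, ← hPdef]; exact jp_primeFactors P j
  have hm'P : ∀ p ∈ PR δ T c μ, ¬ p ∣ m' := by rw [hm', ← hPdef]; exact jq_not_dvd hP j
  obtain ⟨ga, hga⟩ : ∃ x, x = ∑ d ∈ m'.divisors, ma T (PR δ T c μ) d := ⟨_, rfl⟩
  obtain ⟨B, hB⟩ : ∃ x, x = ∑ d ∈ m.divisors, (if Squarefree d then ∏ p ∈ d.primeFactors, |rp T c v p| else 0) *
    2 ^ (m / d).primeFactors.card := ⟨_, rfl⟩
  have hB0 : 0 ≤ B := by
    rw [hB]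
    refine Finset.sum_nonneg fun d _ => mul_nonneg ?_ (by positivity)
    split_ifs
    · exact Finset.prod_nonneg fun p _ => abs_nonneg _
    · exact le_rfl
  have hsum2 : ∑ n ∈ m.divisors, r n * H (m / n * m') ≤
      |ga| * (m' : ℝ) ^ (-σ₁) * ((m : ℝ) ^ (-(1 / 2 : ℝ)) * B) := by
    rw [hB, Finset.mul_sum, Finset.mul_sum]
    refine Finset.sum_le_sum fun n hn => ?_
    have hdvd := Nat.dvd_of_mem_divisors hn
    have hnpos : 0 < n := Nat.pos_of_mem_divisors hn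
    have hn0 : (0 : ℝ) < n := by exact_mod_cast hnpos
    have hk0 : 0 < m / n := Nat.div_pos (Nat.le_of_dvd (Nat.pos_of_ne_zero hmne) hdvd) hnpos
    have hk0' : (0 : ℝ) < ((m / n : ℕ) : ℝ) := by exact_mod_cast hk0
    have hk1 : (1 : ℝ) ≤ ((m / n : ℕ) : ℝ) := by exact_mod_cast hk0
    have hmm : (m : ℝ) = n * ((m / n : ℕ) : ℝ) := by
      rw [← Nat.cast_mul, Nat.mul_div_cancel' hdvd]
    have hkP : (m / n).primeFactors ⊆ PR δ T c μ :=
      (Nat.primeFactors_mono (Nat.div_dvd_of_dvd hdvd) hmne).trans hmP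
    rw [hr, hH, hmul PR_prime hk0.ne' hm'ne hkP hm'P, ← hga, abs_mul, Nat.cast_mul,
      Real.mul_rpow hk0'.le hm'0.le]
    have h1 : ((m / n : ℕ) : ℝ) ^ (-σ₁) ≤ ((m / n : ℕ) : ℝ) ^ (-(1 / 2 : ℝ)) :=
      Real.rpow_le_rpow_of_exponent_le hk1 (by linarith)
    have h2 : (m : ℝ) ^ (-(1 / 2 : ℝ)) =
        (n : ℝ) ^ (-(1 / 2 : ℝ)) * ((m / n : ℕ) : ℝ) ^ (-(1 / 2 : ℝ)) := by
      rw [← Real.mul_rpow hn0.le hk0'.le, ← hmm]
    rw [h2]
    have h3 := rr_le (δ := δ) (T := T) (c := c) (μ := μ) (v := v) n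
    have h4 := hgb (T := T) (Q := PR δ T c μ) (m / n)
    obtain ⟨w, hw⟩ : ∃ w : ℝ, w = if Squarefree n then ∏ p ∈ n.primeFactors, |rp T c v p| else 0 := ⟨_, rfl⟩
    rw [← hw] at h3 ⊢
    have hw0 : 0 ≤ w := (abs_nonneg _).trans h3
    calc |rr δ T c μ v n| * (n : ℝ) ^ (-(1 / 2 : ℝ)) *
          (|∑ d ∈ (m / n).divisors, mb T (PR δ T c μ) d| * |ga| *
            (((m / n : ℕ) : ℝ) ^ (-σ₁) * (m' : ℝ) ^ (-σ₁)))
        = |ga| * (m' : ℝ) ^ (-σ₁) * (n : ℝ) ^ (-(1 / 2 : ℝ)) *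
            (|rr δ T c μ v n| * |∑ d ∈ (m / n).divisors, mb T (PR δ T c μ) d| * ((m / n : ℕ) : ℝ) ^ (-σ₁)) := by ring
      _ ≤ |ga| * (m' : ℝ) ^ (-σ₁) * (n : ℝ) ^ (-(1 / 2 : ℝ)) *
            (w * 2 ^ (m / n).primeFactors.card * ((m / n : ℕ) : ℝ) ^ (-(1 / 2 : ℝ))) := by
          refine mul_le_mul_of_nonneg_left ?_ (by positivity)
          refine mul_le_mul (mul_le_mul h3 h4 (abs_nonneg _) hw0) h1 (by positivity) (by positivity)
      _ = _ := by ring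
  -- squares
  have h5 : |(∑ h ∈ j.divisors, gg T (PR δ T c μ) h * q (j / h)) - q j| * (j : ℝ) ^ (-σ) ≤
      Z * (|ga| * (m' : ℝ) ^ (-σ₁) * ((m : ℝ) ^ (-(1 / 2 : ℝ)) * B)) :=
    hsum1.trans (mul_le_mul_of_nonneg_left hsum2 hZ0)
  have h6 := pow_le_pow_left₀ (by positivity) h5 2
  have hsq : ∀ (x : ℝ) (a : ℝ), 0 < x → (x ^ a) ^ 2 = x ^ (2 * a) := by
    intro x a hx
    rw [← Real.rpow_natCast (x ^ a) 2, ← Real.rpow_mul hx.le]
    congr 1
    push_cast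
    ring
  rw [mul_pow, sq_abs, hsq _ _ hj0] at h6
  have e1 : (j : ℝ) ^ (2 * -σ) = (j : ℝ) ^ (-2 * σ) := by
    congr 1
    ring
  rw [e1] at h6
  rw [hPdef]
  refine h6.trans (le_of_eq ?_)
  rw [mul_pow, mul_pow, mul_pow, mul_pow, sq_abs, hsq _ _ hm'0, hsq _ _ hm0, hZ, hsq _ _ hT0]
  unfold Bf Af
  rw [← hB, ← hga]
  have e2 : (2 : ℝ) * (-(σ - σ₁) / 32) = -(σ - 1 / 2 - 1 / Real.log T) / 16 := by
    rw [hσ₁]
    ring
  have e3 : (2 : ℝ) * -σ₁ = -(1 + 2 / Real.log T) := by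
    rw [hσ₁]
    ring
  have e4 : (2 : ℝ) * -(1 / 2) = -1 := by ring
  rw [e2, e3, e4, Real.rpow_neg_one]
  ring

/-- **M4**, from the blocks R5, M2, M3. -/
theorem arith_of (hgap : Gap) (hmul : GMul) (hgb : GB) (hR5 : ProdVV δ) (hbv : BV δ) :
    ∃ C c0 T0 : ℝ, 0 < C ∧ ∀ T c m v : ℝ, T0 ≤ T → Adm c0 T c m →
    |v| = vv δ c m →
    ∀ σ, 1 / 2 + 1 / Real.log T ≤ σ → σ ≤ 3 / 4 → ∀ q : ℕ → ℝ, (∀ n, |q n| ≤ |rr δ T c m v n| * (n : ℝ) ^ (σ - 1 / 2)) →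
    Summable (fun j : ℕ => ((∑ h ∈ j.divisors, gg T (PR δ T c m) h * q (j / h)) - q j) ^ 2 * (j : ℝ) ^ (-2 * σ)) ∧
    ∑' j : ℕ, ((∑ h ∈ j.divisors, gg T (PR δ T c m) h * q (j / h)) - q j) ^ 2 * (j : ℝ) ^ (-2 * σ) ≤
      C * T ^ (-(σ - 1 / 2 - 1 / Real.log T) / 16) * Real.exp (C * √m) * VV δ T c m v := by
  obtain ⟨C5, c5, T5, hC5, h5⟩ := hR5
  obtain ⟨C2, c2, T2, hC2, h2⟩ := hbv
  refine ⟨C2 * C5 + C5 + C2, max c5 c2, max (max T5 T2) 2, by positivity, ?_⟩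
  intro T c μ v hT hc hv σ hσ _ q hq
  have hT5 : T5 ≤ T := (le_max_left _ _).trans ((le_max_left _ _).trans hT)
  have hT2 : T2 ≤ T := (le_max_right _ _).trans ((le_max_left _ _).trans hT)
  have hT1 : 1 < T := lt_of_lt_of_le one_lt_two ((le_max_right _ _).trans hT)
  have hT0 : 0 < T := by linarith
  have hR := h5 T c μ v hT5 (hc.mono (le_max_left _ _)) hv
  have hA := h2 T c μ hT2 (hc.mono (le_max_right _ _))
  have hVV : 0 ≤ VV δ T c μ v := by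
    unfold VV
    exact Finset.sum_nonneg fun n _ => by positivity
  obtain ⟨E, hE⟩ : ∃ E : ℝ, E = T ^ (-(σ - 1 / 2 - 1 / Real.log T) / 16) := ⟨_, rfl⟩
  have hE0 : 0 ≤ E := by rw [hE]; positivity
  obtain ⟨f, hf⟩ : ∃ f : ℕ → ℝ, f = fun j : ℕ =>
    ((∑ h ∈ j.divisors, gg T (PR δ T c μ) h * q (j / h)) - q j) ^ 2 * (j : ℝ) ^ (-2 * σ) := ⟨_, rfl⟩
  have hf0 : ∀ j, 0 ≤ f j := fun j => by
    rw [hf]
    positivity
  have hq0 : q 0 = 0 := by
    have h1 := hq 0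
    have h2 : rr δ T c μ v 0 = 0 := by
      unfold rr
      rw [if_neg fun h => not_squarefree_zero h.1]
    rw [h2, abs_zero, zero_mul] at h1
    exact abs_nonpos_iff.1 h1
  have hfz : f 0 = 0 := by
    rw [hf]
    change ((∑ h ∈ Nat.divisors 0, gg T (PR δ T c μ) h * q (0 / h)) - q 0) ^ 2 * ((0 : ℕ) : ℝ) ^ (-2 * σ) = 0
    rw [Nat.divisors_zero, Finset.sum_empty, hq0]
    simp
  obtain ⟨M, hM⟩ : ∃ M : ℝ, M = (C2 * C5 + C5 + C2) * E * Real.exp ((C2 * C5 + C5 + C2) * √μ) * VV δ T c μ v :=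
    ⟨_, rfl⟩
  have hbound : ∀ S : Finset ℕ, ∑ j ∈ S, f j ≤ M := by
    intro S
    have hS : ∑ j ∈ S, f j = ∑ j ∈ S.erase 0, f j := by
      by_cases h0 : 0 ∈ S
      · rw [← Finset.add_sum_erase _ _ h0, hfz, zero_add]
      · rw [Finset.erase_eq_of_notMem h0]
    rw [hS]
    have hne : ∀ j ∈ S.erase 0, j ≠ 0 := fun j hj => (Finset.mem_erase.1 hj).1
    have h3 : ∑ j ∈ S.erase 0, f j ≤
        ∑ j ∈ S.erase 0, E * (Bf (fun p => |rp T c v p|) (jp (PR δ T c μ) j) * Af T (PR δ T c μ) (jq (PR δ T c μ) j)) := by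
      refine Finset.sum_le_sum fun j hj => ?_
      rw [hf, hE]
      exact term_le hgap hmul hgb hT1 hσ hq (hne j hj)
    refine h3.trans ?_
    rw [← Finset.mul_sum]
    have h4 := sum_prod (P := PR δ T c μ) (S.erase 0) hne (Af_nonneg T (PR δ T c μ)) (Bf_nonneg (fun p => |rp T c v p|))
    have h6 : ∑ m ∈ (S.erase 0).image (jp (PR δ T c μ)), Bf (fun p => |rp T c v p|) m ≤
        C5 * Real.exp (C5 * √μ) * VV δ T c μ v := by
      refine le_trans ?_ hR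
      refine ppart (w := fun p => |rp T c v p|) PR_prime (fun p _ => abs_nonneg _) _ fun n hn => ?_
      obtain ⟨j, hj, rfl⟩ := Finset.mem_image.1 hn
      exact ⟨jp_ne _ (hne j hj), jp_primeFactors _ _⟩
    have h7 : ∑ m ∈ (S.erase 0).image (jq (PR δ T c μ)), Af T (PR δ T c μ) m ≤ C2 * Real.exp (C2 * √μ) := by
      refine hA _ fun n hn => ?_
      obtain ⟨j, hj, rfl⟩ := Finset.mem_image.1 hn
      exact jq_ne _ (hne j hj)
    have h8 : ∑ j ∈ S.erase 0, Bf (fun p => |rp T c v p|) (jp (PR δ T c μ) j) * Af T (PR δ T c μ) (jq (PR δ T c μ) j) ≤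
        C5 * Real.exp (C5 * √μ) * VV δ T c μ v * (C2 * Real.exp (C2 * √μ)) :=
      h4.trans (mul_le_mul h6 h7 (Finset.sum_nonneg fun m _ => Af_nonneg T (PR δ T c μ) m) (by positivity))
    have h9 : Real.exp (C5 * √μ) * Real.exp (C2 * √μ) ≤ Real.exp ((C2 * C5 + C5 + C2) * √μ) := by
      rw [← Real.exp_add, ← add_mul]
      refine Real.exp_le_exp.2 (mul_le_mul_of_nonneg_right ?_ (Real.sqrt_nonneg μ))
      have : 0 ≤ C2 * C5 := by positivity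
      linarith
    calc E * ∑ j ∈ S.erase 0, Bf (fun p => |rp T c v p|) (jp (PR δ T c μ) j) * Af T (PR δ T c μ) (jq (PR δ T c μ) j)
        ≤ E * (C5 * Real.exp (C5 * √μ) * VV δ T c μ v * (C2 * Real.exp (C2 * √μ))) := mul_le_mul_of_nonneg_left h8 hE0
      _ = C2 * C5 * (E * VV δ T c μ v * (Real.exp (C5 * √μ) * Real.exp (C2 * √μ))) := by ring
      _ ≤ (C2 * C5 + C5 + C2) * (E * VV δ T c μ v * Real.exp ((C2 * C5 + C5 + C2) * √μ)) := by
          refine mul_le_mul (by linarith) (mul_le_mul_of_nonneg_left h9 (by positivity))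
            (by positivity) (by positivity)
      _ = M := by rw [hM]; ring
  have hs : Summable f := summable_of_sum_le hf0 hbound
  rw [← hE, ← hM]
  rw [hf] at hs hbound
  exact ⟨hs, hs.tsum_le_of_sum_le hbound⟩

end

end Pool.Agent.Helper90.UW
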